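import Pool.Agent.W619.Y.LDefs

set_option autoImplicit false
set_option linter.overlappingInstances false
set_option linter.unusedSectionVars false

open FF IntermediateField Pool.Agent.W619.PQ Pool.Agent.W619.PL Pool.Agent.W619.TW
  Pool.Agent.W603.LV Pool.Agent.W619.X

namespace Pool.Agent.W141.PG.REST

theorem main : Pool.Agent.W619.Y.S_REST := by
  intro k L _ _ _ _ _ F Q hQ w p e h
  letI : Algebra Q F := (inclusion hQ).toRingHom.toAlgebra
  haveI : IsScalarTower k Q F := IsScalarTower.of_algebraMap_eq fun x => rfl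
  haveI : IsScalarTower Q F L := IsScalarTower.of_algebraMap_eq fun x => rfl
  obtain ⟨t, ht0, ht⟩ := p.surj
  have h2 : w.ord (algebraMap F L (algebraMap Q F t)) ≠ 0 := by
    rw [← IsScalarTower.algebraMap_apply Q F L, h.2, ht, mul_one]
    have := h.1
    omega
  obtain ⟨a, q, hq⟩ := exists_over (K := F) w ⟨_, h2⟩
  have h3 : q.ord (algebraMap Q F t) ≠ 0 := by
    intro h
    apply h2
    rw [hq.2, h, mul_zero]
  obtain ⟨b, p', hp'⟩ := exists_over (K := Q) q ⟨_, h3⟩
  obtain ⟨rfl, -⟩ := over_unique' h (over_trans hq hp')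
  exact ⟨q, a, b, hq, hp'.1, fun f => hp'.2 f⟩

end Pool.Agent.W141.PG.REST
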